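import Pool.Agent.H97.HV.Targets
import Pool.Agent.H32.HV.HNA

/-!
# INDH, INDW. Homogeneous sets without amenability (MP_e37c09_lc)
-/

open Ordinal Cardinal Order Set
open scoped ZFSet

universe u

namespace HD.HV

open HD.PRK

/-- Each set which is stationary in the points of cofinality less than `δ` has such a subset `A`
such that for all its limit points `β ≤ κ` each regressive function on `β` in HOD(V_ (min γ β)) is
constant on a final segment of `A ∩ β`. -/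
def INDH (δ γ κ : Ordinal.{u}) : Prop := ∀ T, St δ κ T → ∃ A : Set Ordinal.{u},
  (∀ a ∈ A, a ∈ T ∧ a.cof.ord < δ) ∧ St δ κ A ∧ ∀ β ≤ κ, 0 < β → Unb β A → HomN γ β A

/-- There is an unbounded set `A` of limit ordinals of cofinality less than `δ` such that each
regressive function on `κ` in HOD(V_ γ) is constant on a final segment of `A`. -/
def INDW (δ γ κ : Ordinal.{u}) : Prop := ∃ A : Set Ordinal.{u},
  (∀ a ∈ A, IsSuccLimit a ∧ a.cof.ord < δ) ∧ Unb κ A ∧ HomN γ κ A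

end HD.HV

namespace Pool.Agent.H43.HV

open _root_.HD HD.PRK HD.HV Pool.Agent.H32.HV

/-- Homogeneous and amenable sets are homogeneous. -/
theorem nh {δ γ κ : Ordinal.{u}} (h : INDN δ γ κ) : INDH δ γ κ := by
  intro T hT
  obtain ⟨A, h1, h2, h3⟩ := h T hT
  exact ⟨A, h1, h2, fun β hβ h0 hU => (h3 β hβ h0 hU).1⟩

/-- The limit ordinals are stationary in the points of cofinality less than `δ`. -/
theorem st_lim {δ : Ordinal.{u}} (hδ : Extendible δ) {K : Cardinal.{u}} (hK : K.IsRegular)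
    (hδK : δ < K.ord) : St δ K.ord {a | IsSuccLimit a} := by
  obtain ⟨D, hD, -, -, hD0⟩ := Pool.Agent.H45.CF.ext_card hδ
  have hDK : D < K := by
    rw [hD] at hδK
    exact Cardinal.ord_lt_ord.1 hδK
  have hK0 : ℵ₀ < K := hD0.trans hDK
  intro C hC
  obtain ⟨b, hb, hbC, -, hbf⟩ := All.vc ℵ₀ K.ord Cardinal.isRegular_aleph0
    (by rw [hK.cof_ord]; exact hK0) C hC
  have hcof : b.cof = ℵ₀ := Cardinal.ord_injective hbf
  refine ⟨b, hb, hbC, Ordinal.one_lt_cof_iff.1 (by rw [hcof]; exact Cardinal.one_lt_aleph0), ?_⟩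
  rw [hcof, hD]
  exact Cardinal.ord_lt_ord.2 hD0

/-- Stationary sets are unbounded. -/
theorem unb_of_st {δ : Ordinal.{u}} {K : Cardinal.{u}} (hK : K.IsRegular)
    {A : Set Ordinal.{u}} (hA : St δ K.ord A) : Unb K.ord A := by
  have hKlim : IsSuccLimit K.ord := isSuccLimit_ord hK.aleph0_le
  intro η hη
  have hC : Clb K.ord (Ioi η) := by
    refine ⟨fun a ha => ?_, fun x hx hx0 h => ?_⟩
    · exact ⟨max a η + 1, hKlim.add_one_lt (max_lt ha hη),
        (le_max_left _ _).trans_lt (lt_add_one _),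
        Set.mem_Ioi.2 ((le_max_right a η).trans_lt (lt_add_one _))⟩
    · obtain ⟨z, hz, -, hz2⟩ := h 0 hx0
      exact lt_trans hz2 hz
  obtain ⟨a, ha, haC, haA, -⟩ := hA _ hC
  exact ⟨a, haA, haC, ha⟩

/-- The condition for all stationary sets gives one unbounded homogeneous set. -/
theorem hw {δ : Ordinal.{u}} (hδ : Extendible δ) {K : Cardinal.{u}} (hK : K.IsRegular)
    (hδK : δ < K.ord) {γ : Ordinal.{u}} (h : INDH δ γ K.ord) : INDW δ γ K.ord := by
  obtain ⟨A, hAT, hAS, hAH⟩ := h _ (st_lim hδ hK hδK)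
  have hU := unb_of_st hK hAS
  exact ⟨A, hAT, hU, hAH K.ord le_rfl (isSuccLimit_ord hK.aleph0_le).bot_lt hU⟩

/-- INH. No homogeneous set in the first case. -/
theorem pf_INH (h0 : T_PVA.{u}) (h1 : T_YR.{u}) : ∀ δ : Ordinal.{u}, Extendible δ → CaseA δ →
    ∀ K : Cardinal.{u}, K.IsRegular → δ < K.ord → ∀ γ : Ordinal.{u}, 0 < γ →
      ¬ INDW δ γ K.ord := by
  intro δ hδ hA K hK hδK γ hγ hI
  obtain ⟨D, hD, hDr, hDs, hD0⟩ := Pool.Agent.H45.CF.ext_card hδ
  have hDK : D < K := by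
    rw [hD] at hδK
    exact Cardinal.ord_lt_ord.1 hδK
  have hK0 : ℵ₀ < K := hD0.trans hDK
  have hKlim : IsSuccLimit K.ord := isSuccLimit_ord hK.aleph0_le
  have hKpos : (0 : Ordinal.{u}) < K.ord := hKlim.bot_lt
  obtain ⟨R, hR, hRa⟩ := h1 δ hδ hA
  obtain ⟨A, hAT, hU, hH⟩ := hI
  have hmin : 0 < min γ K.ord := lt_min hγ hKpos
  -- the values
  have hkey : ∀ n < K.ord, ∃ c < K.ord, n ≤ c ∧ ∃ η < K.ord, ∀ a ∈ A, η ≤ a → a < K.ord →
      R a c := by
    intro n hn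
    obtain ⟨η, hη, c, hc⟩ := hH (rs K.ord K.ord (Rn R n))
      (nv_hod h0 hmin _ (hod_rs (rn_dr hR n) _ _))
      (isFunc_rs (fun a ha => by
        obtain ⟨b, hb, h⟩ := rn_ex R n a
        exact ⟨b, hb.trans_lt ha, h⟩) fun a b b' h h' => rn_un h h')
      (fun a b hab h => rn_lt (pair_mem_rs.1 hab).2.2 h)
    have key : ∀ a ∈ A, max η n + 1 ≤ a → a < K.ord → c < K.ord ∧ n ≤ c ∧ R a c := by
      intro a ha h2 h3
      obtain ⟨h4, h5, h6⟩ := pair_mem_rs.1 (hc a ha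
        ((le_max_left _ _).trans ((lt_add_one _).le.trans h2)) h3)
      have hna : n < a := (le_max_right _ _).trans_lt ((lt_add_one _).trans_le h2)
      obtain ⟨hlt, -, hun⟩ := hRa a (hAT a ha).1 (hAT a ha).2
      rcases h6 with ⟨h6, -⟩ | ⟨h6, -⟩
      · exact ⟨h5, h6.1, h6.2.1⟩
      · obtain ⟨t, ht, hRt⟩ := hun n hna
        exact absurd ⟨ht, hRt⟩ (h6 t (hlt t hRt))
    have hs : max η n + 1 < K.ord := hKlim.add_one_lt (max_lt hη hn)
    obtain ⟨a, ha, ha1, ha2⟩ := hU _ hs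
    have h7 := key a ha ha1.le ha2
    exact ⟨c, h7.1, h7.2.1, max η n + 1, hs, fun a' ha' h8 h9 => (key a' ha' h8 h9).2.2⟩
  choose! c hcK hcn η hη hcR using hkey
  obtain ⟨s, hs, hsb⟩ := Pool.Agent.H3.HD.exists_bound (ρ := K.ord) (τ := δ)
    (by rw [hK.cof_ord, hD, Cardinal.card_ord]; exact hDK) (fun i => η (sq c i))
    (fun i hi => hη _ (sq_lt hK hcK i (hi.trans hδK)))
  obtain ⟨a, haA, ha1, ha2⟩ := hU s hs
  obtain ⟨-, ⟨τ, hτ, e, he⟩, -⟩ := hRa a (hAT a haA).1 (hAT a haA).2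
  have hRi : ∀ i < δ, R a (c (sq c i)) := fun i hi =>
    hcR _ (sq_lt hK hcK i (hi.trans hδK)) a haA ((hsb i hi).trans ha1.le) ha2
  have hinj : ∀ i < δ, ∀ j < δ, c (sq c i) = c (sq c j) → i = j := by
    have hlt : ∀ i j, i < j → j < δ → c (sq c i) < c (sq c j) := fun i j hij hj =>
      (sq_gt c hij).trans_le (hcn _ (sq_lt hK hcK j (hj.trans hδK)))
    intro i hi j hj hij
    rcases lt_trichotomy i j with h | h | h
    · exact absurd hij (hlt i j h hj).ne
    · exact h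
    · exact absurd hij (hlt j i h hi).ne'
  have hex : ∀ i : Iio δ, ∃ t : Iio τ, e t.1 = c (sq c i.1) := fun i => by
    obtain ⟨t, ht, hte⟩ := he _ (hRi i.1 i.2)
    exact ⟨⟨t, ht⟩, hte⟩
  choose g hg using hex
  have hgi : Function.Injective g := fun i j hij => by
    apply Subtype.ext
    refine hinj i.1 i.2 j.1 j.2 ?_
    rw [← hg i, ← hg j, hij]
  have hcard := Cardinal.mk_le_of_injective hgi
  rw [Cardinal.mk_Iio_ordinal, Cardinal.mk_Iio_ordinal, Cardinal.lift_le, hD,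
    Cardinal.card_ord] at hcard
  rw [hD] at hτ
  exact absurd hcard (not_le.2 (lt_ord.1 hτ))

/-- The equivalence for homogeneous sets follows from the one for homogeneous and amenable sets. -/
theorem iff_INDH (h0 : T_PVA.{u}) (h1 : T_YR.{u}) {δ : Ordinal.{u}} (hδ : Extendible δ)
    {K : Cardinal.{u}} (hK : K.IsRegular) (hδK : δ < K.ord) {γ : Ordinal.{u}} (hγ : 0 < γ)
    (h : ¬ CaseA δ ↔ INDN δ γ K.ord) :
    (¬ CaseA δ ↔ INDH δ γ K.ord) ∧ (¬ CaseA δ ↔ INDW δ γ K.ord) :=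
  ⟨⟨fun h' => nh (h.1 h'), fun h' hA => pf_INH h0 h1 δ hδ hA K hK hδK γ hγ (hw hδ hK hδK h')⟩,
    ⟨fun h' => hw hδ hK hδK (nh (h.1 h')), fun h' hA => pf_INH h0 h1 δ hδ hA K hK hδK γ hγ h'⟩⟩

end Pool.Agent.H43.HV
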